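import Pool.Agent.Q268.ZL.Count

/-!
# For every tree the Z-domination game is strictly shorter than the LL-domination game

Let `g` be the domination number of the tree `T`.

* Staller can always force `2 g - 1` moves in the LL-game (2-packing).  If no minimum dominating
  set contains two adjacent vertices, Staller first wastes moves and then uses a 2-packing of the
  vertices which are not yet totally dominated; this forces `2 g + 1` moves, while the Z-game has
  at most `2 g - 1` moves.
* If some minimum dominating set contains two adjacent vertices, Dominator wins the Z-game in at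
  most `2 g - 2` moves: he plays one of them first and keeps the sum of `2 ^ (-t a)` over the
  remaining vertices `a` of the dominating set at least one at every move of Staller, where `t a`
  is the number of undominated non-leaves in the closed neighbourhood of `a`.
-/

set_option autoImplicit false

universe u

namespace Pool.Agent.Results.MP_3a5066_co.TreesStrict

open Pool.Agent.Q268.ZL

theorem exists_nbr {V : Type u} [Nontrivial V] (G : SimpleGraph V) (hG : G.IsTree) (x : V) :
    ∃ y, G.Adj x y := by
  obtain ⟨y, hy⟩ := exists_ne x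
  obtain ⟨p⟩ := hG.connected x y
  cases p with
  | nil => exact absurd rfl hy
  | cons h _ => exact ⟨_, h⟩

theorem z_adjacent {V : Type u} [Fintype V] [DecidableEq V] (G : SimpleGraph V)
    [DecidableRel G.Adj] (hG : G.IsTree) (hN : ∀ x, ∃ y, G.Adj x y) (g : ℕ)
    (hmin : ∀ D : Finset V, (∀ x, ∃ a ∈ D, x = a ∨ G.Adj a x) → g ≤ D.card)
    (D : Finset V) (hD : ∀ x, ∃ a ∈ D, x = a ∨ G.Adj a x) (hDg : D.card ≤ g)
    {a b : V} (ha : a ∈ D) (hb : b ∈ D) (hab : G.Adj a b) :
    2 ≤ g ∧ Within (LegalZ G) (2 * g - 2) true [] := by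
  classical
  -- adjacent vertices of a minimum dominating set are not leaves
  have hcore : ∀ {a b : V}, a ∈ D → b ∈ D → G.Adj a b → a ∈ core G := by
    intro a b ha hb hab
    by_contra hac
    have h1 : g ≤ (D.erase a).card := by
      refine hmin _ fun x => ?_
      obtain ⟨c, hc, hxc⟩ := hD x
      by_cases hca : c = a
      · subst hca
        refine ⟨b, Finset.mem_erase.2 ⟨hab.symm.ne, hb⟩, ?_⟩
        rcases hxc with rfl | h
        · exact Or.inr hab.symm
        · exact Or.inl (leaf_unique hac h hab)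
      · exact ⟨c, Finset.mem_erase.2 ⟨hca, hc⟩, hxc⟩
    rw [Finset.card_erase_of_mem ha] at h1
    have : 0 < D.card := Finset.card_pos.2 ⟨a, ha⟩
    omega
  have haC : a ∈ core G := hcore ha hb hab
  have hbC : b ∈ core G := hcore hb ha hab.symm
  choose nb hnb using hN
  let f : V → V := fun x => if x ∈ core G then x else nb x
  set A := D.image f with hAdef
  have hfC : ∀ x, f x ∈ core G := by
    intro x
    by_cases hx : x ∈ core G
    · simpa [f, hx] using hx
    · simpa [f, hx] using leaf_nbr_core hG haC hx (hnb x)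
  have hAC : A ⊆ core G := by
    intro x hx
    obtain ⟨y, _, rfl⟩ := Finset.mem_image.1 hx
    exact hfC y
  have hAdom : ∀ x, ∃ a ∈ A, x = a ∨ G.Adj a x := by
    intro x
    obtain ⟨c, hc, hxc⟩ := hD x
    refine ⟨f c, Finset.mem_image_of_mem f hc, ?_⟩
    by_cases hcc : c ∈ core G
    · have hfc : f c = c := by simp [f, hcc]
      rw [hfc]; exact hxc
    · have hfc : f c = nb c := by simp [f, hcc]
      rw [hfc]
      rcases hxc with rfl | h
      · exact Or.inr (hnb x).symm
      · exact Or.inl (leaf_unique hcc h (hnb c))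
  have hAg : A.card = g := le_antisymm (Finset.card_image_le.trans hDg) (hmin A hAdom)
  have haA : a ∈ A := Finset.mem_image.2 ⟨a, ha, by simp [f, haC]⟩
  have hbA : b ∈ A := Finset.mem_image.2 ⟨b, hb, by simp [f, hbC]⟩
  have hg2 : 2 ≤ g := by
    rw [← hAg]
    have : ({a, b} : Finset V) ⊆ A := by
      intro x hx
      rcases Finset.mem_insert.1 hx with rfl | hx
      · exact haA
      · rw [Finset.mem_singleton.1 hx]; exact hbA
    have h2 := Finset.card_le_card this
    rwa [Finset.card_pair hab.ne] at h2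
  refine ⟨hg2, ?_⟩
  have hE : ∀ v ∈ core G, del G v ≤ 1 → v ∈ A := by
    intro v hv hdv
    have hdeg : 2 ≤ G.degree v := (Finset.mem_filter.1 hv).2
    have hsplit := degree_split (G := G) v
    have hpos : 0 < ((Finset.univ \ core G).filter fun w => G.Adj v w).card := by omega
    obtain ⟨w, hw⟩ := Finset.card_pos.1 hpos
    simp only [Finset.mem_filter, Finset.mem_sdiff, Finset.mem_univ, true_and] at hw
    obtain ⟨c, hc, hwc⟩ := hAdom w
    rcases hwc with rfl | h
    · exact absurd (hAC hc) hw.1
    · have : c = v := leaf_unique hw.1 h.symm hw.2.symm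
      rw [← this]; exact hc
  have hfin : ∀ {a b : V}, a ∈ A → G.Adj a b → 1 ≤ Phi G (core G) (A.erase a) [a] →
      Within (LegalZ G) (2 * g - 2) true [] := by
    intro a b haA hab hPhi
    have hk : 2 * g - 2 = (2 * (g - 2) + 1) + 1 := by omega
    rw [hk]
    refine Or.inr ⟨a, ⟨b, hab, by simp⟩, ?_⟩
    refine (z_potential G (fun x => ⟨nb x, hnb x⟩) (core G)
      (fun x hx y z hy hz => leaf_unique hx hy hz) (g - 2) (A.erase a) [a] ?_ ?_ ?_).2 hPhi
    · rw [Finset.card_erase_of_mem haA, hAg]; omega
    · exact fun x hx => hAC (Finset.mem_of_mem_erase hx)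
    · intro x hx
      obtain ⟨c, hc, hxc⟩ := hAdom x
      refine ⟨c, Finset.mem_erase.2 ⟨?_, hc⟩, hxc⟩
      rintro rfl
      exact und_single.1 hx hxc
  rcases phi_init hG (fun x => ⟨nb x, hnb x⟩) A hE haC hbC haA hbA hab with h | h
  · exact hfin haA hab h
  · exact hfin hbA hab.symm h

/-- For every tree `G` with at least two vertices, Dominator can force both games to end, and the
number of moves of the Z-domination game is smaller than that of the LL-domination game. -/
theorem result {V : Type u} [Finite V] [Nontrivial V] (G : SimpleGraph V) (hG : G.IsTree) :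
    (∃ k, Within (LegalZ G) k true []) ∧ (∃ k, Within (LegalLL G) k true []) ∧
      gameNumber (LegalZ G) < gameNumber (LegalLL G) := by
  classical
  haveI : Fintype V := Fintype.ofFinite V
  have hN := exists_nbr G hG
  have hex : ∃ n, ∃ D : Finset V, (∀ x, ∃ a ∈ D, x = a ∨ G.Adj a x) ∧ D.card = n :=
    ⟨_, Finset.univ, fun x => ⟨x, Finset.mem_univ _, Or.inl rfl⟩, rfl⟩
  obtain ⟨D0, hD0, hD0g⟩ := Nat.find_spec hex
  set g := Nat.find hex with hg
  have hmin : ∀ D : Finset V, (∀ x, ∃ a ∈ D, x = a ∨ G.Adj a x) → g ≤ D.card := by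
    intro D hD
    exact Nat.find_min' hex ⟨D, hD, rfl⟩
  have hg1 : 1 ≤ g := by
    rw [← hD0g]
    obtain ⟨x⟩ : Nonempty V := inferInstance
    obtain ⟨a, ha, _⟩ := hD0 x
    exact Finset.card_pos.2 ⟨a, ha⟩
  have hLLfin : Within (LegalLL G) (2 * Fintype.card V) true [] :=
    ll_finite G hN (Fintype.card V) Finset.univ [] (by rw [Finset.card_univ])
      (fun x _ => Finset.mem_univ x)
  have hLLne : {k | Within (LegalLL G) k true []}.Nonempty := ⟨_, hLLfin⟩
  have hLLmem : Within (LegalLL G) (gameNumber (LegalLL G)) true [] := Nat.sInf_mem hLLne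
  have hZ1 : Within (LegalZ G) (2 * g - 1) true [] :=
    z_upper G hN g D0 [] hD0g.le (fun x _ => hD0 x)
  refine ⟨⟨_, hZ1⟩, ⟨_, hLLfin⟩, ?_⟩
  obtain ⟨r⟩ : Nonempty V := inferInstance
  by_cases hcase : ∃ D : Finset V, (∀ x, ∃ a ∈ D, x = a ∨ G.Adj a x) ∧ D.card ≤ g ∧
      ∃ a ∈ D, ∃ b ∈ D, G.Adj a b
  · obtain ⟨D, hD, hDg, a, ha, b, hb, hab⟩ := hcase
    obtain ⟨hg2, hZ⟩ := z_adjacent G hG hN g hmin D hD hDg ha hb hab
    have h1 : gameNumber (LegalZ G) ≤ 2 * g - 2 := Nat.sInf_le hZ
    obtain ⟨P, W, _, hWP, hP, hW⟩ := tree_dual hG r Finset.univ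
    have h2 : g ≤ W.card := hmin W fun x => hW x (Finset.mem_univ x)
    have h3 := (ll_packing G (gameNumber (LegalLL G)) P [] hP
      (fun p _ u hu => by simp at hu)).1 hLLmem
    omega
  · have h1 : gameNumber (LegalZ G) ≤ 2 * g - 1 := Nat.sInf_le hZ1
    have h2 := (ll_waste G g (fun D hD hadj => by
        by_contra hlt
        exact hcase ⟨D, hD, by omega, hadj⟩) (tree_dual hG r)
      (gameNumber (LegalLL G)) ∅ [] (fun x => by simp [UndT])).1 hLLmem
    simp only [Finset.card_empty] at h2
    omega

end Pool.Agent.Results.MP_3a5066_co.TreesStrict
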